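import Pool.Agent.H626.SE.PEnergy

/-!
# MP_e55f1b_co: the connected graphs with negative square energy `n - 1` are the trees and the
complete graphs
-/

set_option autoImplicit false

namespace Pool.Agent.Results.MP_e55f1b_co.MinusEqualityCases

/-- The negative square energy of a graph: the sum of `λ ^ 2` over the negative eigenvalues `λ`
of the adjacency matrix, listed with multiplicity (`h` is the fact that this matrix is
symmetric). -/
noncomputable def sMinus {V : Type*} [Fintype V] [DecidableEq V] (G : SimpleGraph V)
    [DecidableRel G.Adj] (h : (G.adjMatrix ℝ).IsHermitian) : ℝ :=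
  ∑ i, if h.eigenvalues i < 0 then (h.eigenvalues i) ^ 2 else 0

/-- Q1 of MP_e55f1b_co: a connected graph `G` on `n` vertices satisfies `s⁻(G) = n - 1` if and
only if it is a tree or the complete graph. -/
theorem result {V : Type*} [Fintype V] [DecidableEq V] (G : SimpleGraph V) [DecidableRel G.Adj]
    (hG : G.Connected) (h : (G.adjMatrix ℝ).IsHermitian) :
    sMinus G h = (Fintype.card V : ℝ) - 1 ↔ G.IsTree ∨ G = ⊤ := by
  unfold sMinus
  rw [H626.SE.sq_minus]
  refine ⟨fun he => H626.SE.minus_eq G h hG he.le, ?_⟩
  rintro (hT | hK)
  · exact (H626.SE.tree_energy G h hT).2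
  · subst hK
    have := hG.nonempty
    exact (H626.SE.top_card h).2

end Pool.Agent.Results.MP_e55f1b_co.MinusEqualityCases
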